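import Pool.Agent.H44.GT.Targets

/-!
# The counting functions of a leaf
-/

set_option autoImplicit false

namespace Pool.Agent.H60.GD

open Pool.Agent.H44.DU

section

variable {n : ℕ} (S : Surf n)

lemma xl_le (t : ℝ) (i : Fin n) (k : Fin 3) : S.xl t i ≤ xi t (S.v i k) := by
  fin_cases k
  · exact min_le_left _ _
  · exact (min_le_right _ _).trans (min_le_left _ _)
  · exact (min_le_right _ _).trans (min_le_right _ _)

lemma le_xr (t : ℝ) (i : Fin n) (k : Fin 3) : xi t (S.v i k) ≤ S.xr t i := by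
  fin_cases k
  · exact le_max_left _ _
  · exact (le_max_left _ _).trans (le_max_right _ _)
  · exact (le_max_right _ _).trans (le_max_right _ _)

lemma key_exit {t x y v : ℝ} {r s : Side n} (hs : s.1 = r.1) (hv : S.InJ t s v)
    (h1 : xi t (S.Q r) ≤ x) (h2 : x < v) (h3 : v ≤ y) (h4 : y ≤ xi t (S.P r)) : s = r := by
  rcases side_cases hs with h | h | h
  · exact h
  · exfalso
    have := hv.2
    rw [h, S.P_nx] at this
    linarith
  · exfalso
    have := hv.1
    rw [h, S.Q_nx_nx] at this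
    linarith

lemma key_entry {t x y v : ℝ} {r s : Side n} (hs : s.1 = r.1) (hv : S.InI t s v)
    (h1 : xi t (S.P r) ≤ x) (h2 : x < v) (h3 : v ≤ y) (h4 : y ≤ xi t (S.Q r)) : s = r := by
  rcases side_cases hs with h | h | h
  · exact h
  · exfalso
    have := hv.1
    rw [h, S.P_nx] at this
    linarith
  · exfalso
    have := hv.2
    rw [h, S.Q_nx_nx] at this
    linarith

end

open Classical in
/-- The indicator of the states on the side `r` with coordinate in `(x, z]`. -/
noncomputable def ia {n : ℕ} (y : ℕ → Side n × ℝ) (r : Side n) (x z : ℝ) (k : ℕ) : ℝ :=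
  if (y k).1 = r ∧ x < (y k).2 ∧ (y k).2 ≤ z then 1 else 0

open Classical in
/-- The indicator of the states in the triangle `i` with coordinate in `(x, z]`. -/
noncomputable def ib {n : ℕ} (y : ℕ → Side n × ℝ) (i : Fin n) (x z : ℝ) (k : ℕ) : ℝ :=
  if (y k).1.1 = i ∧ x < (y k).2 ∧ (y k).2 ≤ z then 1 else 0

lemma count_sub {n : ℕ} (y : ℕ → Side n × ℝ) (N : ℕ) (p : Fin n → ℝ → ℝ)
    (hp : ∀ i x, p i x =
      (((Finset.range N).filter fun k => (y k).1.1 = i ∧ (y k).2 ≤ x).card : ℝ) / N)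
    (i : Fin n) (x z : ℝ) (hxz : x ≤ z) :
    p i z - p i x = (∑ k ∈ Finset.range N, ib y i x z k) / N := by
  classical
  rw [hp, hp, ← sub_div]
  congr 1
  rw [Finset.card_filter, Finset.card_filter]
  push_cast
  rw [← Finset.sum_sub_distrib]
  refine Finset.sum_congr rfl fun k _ => ?_
  unfold ib
  by_cases h1 : (y k).1.1 = i
  · by_cases h2 : (y k).2 ≤ x
    · have h3 : (y k).2 ≤ z := h2.trans hxz
      simp [h1, h2, h3, not_lt.2 h2]
    · have h2' := not_le.1 h2
      by_cases h3 : (y k).2 ≤ z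
      · simp [h1, h2, h3, h2']
      · simp [h1, h2, h3]
  · simp [h1]

theorem pf_M_CNT : M_CNT := by
  classical
  intro n S t y hy N hN p hp
  have hN' : (0 : ℝ) < N := by exact_mod_cast hN
  have hab : ∀ (r : Side n) (x z : ℝ), xi t (S.Q r) ≤ x → z ≤ xi t (S.P r) → ∀ k,
      ib y r.1 x z k = ia y r x z k := by
    intro r x z hx hz k
    unfold ib ia
    by_cases h : (y k).1.1 = r.1 ∧ x < (y k).2 ∧ (y k).2 ≤ z
    · have h1 : (y k).1 = r := key_exit S h.1 (hy k).1 hx h.2.1 h.2.2 hz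
      rw [if_pos h, if_pos ⟨h1, h.2⟩]
    · rw [if_neg h, if_neg]
      rintro ⟨h1, h2⟩
      exact h ⟨by rw [h1], h2⟩
  have hba : ∀ (r : Side n) (x z : ℝ), xi t (S.Q r) ≤ x → z ≤ xi t (S.P r) → ∀ k,
      ib y (S.gl r).1 (S.mv t r x) (S.mv t r z) (k + 1) = ia y r x z k := by
    intro r x z hx hz k
    unfold ib ia
    obtain ⟨t1, t2, t3, t4⟩ := hy k
    by_cases h : (y k).1 = r ∧ x < (y k).2 ∧ (y k).2 ≤ z
    · rw [if_pos h, if_pos]
      rw [h.1] at t3 t4
      refine ⟨t3.symm, ?_, ?_⟩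
      · rw [t4, S.mv_lt_iff]; exact h.2.1
      · rw [t4, S.mv_le_iff]; exact h.2.2
    · rw [if_neg h, if_neg]
      rintro ⟨h1, h2, h3⟩
      have hI : S.InI t (S.gl (y k).1) (y (k + 1)).2 := by
        rw [t4, S.inI_gl_iff]; exact t1
      have hg : S.gl (y k).1 = S.gl r := by
        refine key_entry S (t3.trans h1) hI (x := S.mv t r x) (y := S.mv t r z) ?_ h2 h3 ?_
        · rw [S.xi_P_gl, S.mv_le_iff]; exact hx
        · rw [S.xi_Q_gl, S.mv_le_iff]; exact hz
      have hr : (y k).1 = r := S.gl_inj hg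
      rw [t4, hr, S.mv_lt_iff] at h2
      rw [t4, hr, S.mv_le_iff] at h3
      exact h ⟨hr, h2, h3⟩
  have ib01 : ∀ i x z k, 0 ≤ ib y i x z k ∧ ib y i x z k ≤ 1 := by
    intro i x z k
    unfold ib
    split_ifs <;> norm_num
  have ia01 : ∀ r x z k, 0 ≤ ia y r x z k ∧ ia y r x z k ≤ 1 := by
    intro r x z k
    unfold ia
    split_ifs <;> norm_num
  refine ⟨⟨?_, ?_, ?_, ?_, ?_⟩, ?_⟩
  · intro i x z hxz
    have h := count_sub y N p hp i x z hxz
    have h1 : 0 ≤ (∑ k ∈ Finset.range N, ib y i x z k) / N :=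
      div_nonneg (Finset.sum_nonneg fun k _ => (ib01 i x z k).1) hN'.le
    linarith
  · intro i x hx
    rw [hp]
    have : ((Finset.range N).filter fun k => (y k).1.1 = i ∧ (y k).2 ≤ x) = ∅ := by
      rw [Finset.filter_eq_empty_iff]
      rintro k - ⟨h1, h2⟩
      have h3 := (hy k).1.1
      have h4 : S.xl t (y k).1.1 ≤ xi t (S.Q (y k).1) := xl_le S t _ _
      rw [h1] at h4
      linarith
    rw [this]
    simp
  · intro i x hx
    have h := count_sub y N p hp i (S.xr t i) x hx
    have h0 : ∑ k ∈ Finset.range N, ib y i (S.xr t i) x k = 0 := by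
      refine Finset.sum_eq_zero fun k _ => ?_
      unfold ib
      rw [if_neg]
      rintro ⟨h1, h2, -⟩
      have h3 := (hy k).1.2
      have h4 : xi t (S.P (y k).1) ≤ S.xr t (y k).1.1 := le_xr S t _ _
      rw [h1] at h4
      linarith
    rw [h0, zero_div] at h
    linarith
  · intro i
    rw [hp, div_le_one hN']
    have := Finset.card_filter_le (Finset.range N)
      (fun k => (y k).1.1 = i ∧ (y k).2 ≤ S.xr t i)
    rw [Finset.card_range] at this
    exact_mod_cast this
  · intro r x z hx hxz hz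
    rw [count_sub y N p hp r.1 x z hxz,
      count_sub y N p hp (S.gl r).1 _ _ ((S.mv_le_iff t r).2 hxz), ← sub_div, abs_div,
      abs_of_pos hN']
    refine div_le_div_of_nonneg_right ?_ hN'.le
    obtain ⟨M, rfl⟩ : ∃ M, N = M + 1 := ⟨N - 1, by omega⟩
    rw [Finset.sum_range_succ', Finset.sum_range_succ (fun k => ib y r.1 x z k),
      Finset.sum_congr rfl fun k _ => hba r x z hx hz k,
      Finset.sum_congr rfl fun k _ => hab r x z hx hz k]
    have h1 := ib01 (S.gl r).1 (S.mv t r x) (S.mv t r z) 0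
    have h2 := ib01 r.1 x z M
    rw [abs_le]
    constructor <;> linarith [h1.1, h1.2, h2.1, h2.2]
  · intro r hr
    rw [count_sub y N p hp r.1 _ _ hr.le]
    congr 1
    rw [Finset.card_filter]
    push_cast
    refine Finset.sum_congr rfl fun k _ => ?_
    rw [hab r _ _ le_rfl le_rfl]
    unfold ia
    by_cases h : (y k).1 = r
    · have h1 := (hy k).1
      rw [h] at h1
      rw [if_pos ⟨h, h1.1, h1.2.le⟩, if_pos h]
    · rw [if_neg fun h' => h h'.1, if_neg h]

end Pool.Agent.H60.GD
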