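import Pool.Agent.H60.GD.M_LC

/-!
# Short intervals are covered by two words
-/

set_option autoImplicit false

namespace Pool.Agent.H60.GD

open Pool.Agent.H44.DU Filter Topology

lemma exists_pos_le {α : Type*} {s : Set α} (hs : s.Finite) (f : α → ℝ) (hf : ∀ a ∈ s, 0 < f a) :
    ∃ η > (0 : ℝ), ∀ a ∈ s, η ≤ f a := by
  induction s, hs using Set.Finite.induction_on with
  | empty => exact ⟨1, one_pos, fun a ha => absurd ha (Set.notMem_empty a)⟩
  | @insert b s _ _ ih =>
    obtain ⟨η, hη, h⟩ := ih fun a ha => hf a (Set.mem_insert_of_mem b ha)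
    refine ⟨min η (f b), lt_min hη (hf b (Set.mem_insert b s)), fun a ha => ?_⟩
    rcases Set.mem_insert_iff.1 ha with h1 | h1
    · rw [h1]; exact min_le_right _ _
    · exact (min_le_left _ _).trans (h a h1)

section geo

variable {n : ℕ} (S : Surf n)

lemma xl_lt_xr (t : ℝ) (i : Fin n) : S.xl t i < S.xr t i := by
  by_contra h
  push Not at h
  have a0 : S.xl t i ≤ xi t (S.v i 0) := min_le_left _ _
  have a1 : S.xl t i ≤ xi t (S.v i 1) := (min_le_right _ _).trans (min_le_left _ _)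
  have a2 : S.xl t i ≤ xi t (S.v i 2) := (min_le_right _ _).trans (min_le_right _ _)
  have b0 : xi t (S.v i 0) ≤ S.xr t i := le_max_left _ _
  have b1 : xi t (S.v i 1) ≤ S.xr t i := (le_max_left _ _).trans (le_max_right _ _)
  have b2 : xi t (S.v i 2) ≤ S.xr t i := (le_max_right _ _).trans (le_max_right _ _)
  have e1 : xi t (S.v i 1) = xi t (S.v i 0) := le_antisymm (by linarith) (by linarith)
  have e2 : xi t (S.v i 2) = xi t (S.v i 0) := le_antisymm (by linarith) (by linarith)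
  have ho := S.orient i
  unfold xi at e1 e2
  have h1 : (S.v i 1 - S.v i 0).re = t * (S.v i 1 - S.v i 0).im := by
    rw [Complex.sub_re, Complex.sub_im]; linarith
  have h2 : (S.v i 2 - S.v i 0).re = t * (S.v i 2 - S.v i 0).im := by
    rw [Complex.sub_re, Complex.sub_im]; linarith
  rw [h1, h2] at ho
  have : t * (S.v i 1 - S.v i 0).im * (S.v i 2 - S.v i 0).im -
      (S.v i 1 - S.v i 0).im * (t * (S.v i 2 - S.v i 0).im) = 0 := by ring
  linarith

/-- A leaf of the triangle which misses the vertices leaves through a side. -/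
lemma exists_exit (t : ℝ) (i : Fin n) (x : ℝ) (h1 : S.xl t i < x) (h2 : x < S.xr t i)
    (hv : ∀ k, x ≠ xi t (S.v i k)) : ∃ r : Side n, r.1 = i ∧ S.InJ t r x := by
  by_contra hno
  push Not at hno
  have key : ∀ k : Fin 3, x < xi t (S.v i k) → x < xi t (S.v i (k + 1)) := by
    intro k hk
    rcases lt_trichotomy x (xi t (S.v i (k + 1))) with h | h | h
    · exact h
    · exact absurd h (hv _)
    · exact absurd (show S.InJ t (i, k) x from ⟨h, hk⟩) (hno (i, k) rfl)
  have k0 : x < xi t (S.v i 0) → x < xi t (S.v i 1) := key 0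
  have k1 : x < xi t (S.v i 1) → x < xi t (S.v i 2) := key 1
  have k2 : x < xi t (S.v i 2) → x < xi t (S.v i 0) := key 2
  have hl : xi t (S.v i 0) < x ∨ xi t (S.v i 1) < x ∨ xi t (S.v i 2) < x := by
    rcases min_lt_iff.1 h1 with h | h
    · exact Or.inl h
    · rcases min_lt_iff.1 h with h | h
      · exact Or.inr (Or.inl h)
      · exact Or.inr (Or.inr h)
  have hr : x < xi t (S.v i 0) ∨ x < xi t (S.v i 1) ∨ x < xi t (S.v i 2) := by
    rcases lt_max_iff.1 h2 with h | h
    · exact Or.inl h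
    · rcases lt_max_iff.1 h with h | h
      · exact Or.inr (Or.inl h)
      · exact Or.inr (Or.inr h)
  have all : x < xi t (S.v i 0) ∧ x < xi t (S.v i 1) ∧ x < xi t (S.v i 2) := by
    rcases hr with h | h | h
    · exact ⟨h, k0 h, k1 (k0 h)⟩
    · exact ⟨k2 (k1 h), h, k1 h⟩
    · exact ⟨k2 h, k0 (k2 h), h⟩
  rcases hl with h | h | h
  · exact lt_asymm h all.1
  · exact lt_asymm h all.2.1
  · exact lt_asymm h all.2.2

/-- Realised words of every length start near every point of the triangle. -/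
lemma dense_words (hE : T_EX) (t : ℝ) (i : Fin n) (x ρ : ℝ) (h1 : S.xl t i ≤ x)
    (h2 : x ≤ S.xr t i) (hρ : 0 < ρ) (L : ℕ) :
    ∃ (r : Side n) (w : List (Side n)) (x' : ℝ), r.1 = i ∧ w.length = L ∧ |x' - x| < ρ ∧
      S.Run t (r :: w) x' := by
  have hlr := xl_lt_xr S t i
  have hlt : max (S.xl t i) (x - ρ / 2) < min (S.xr t i) (x + ρ / 2) := by
    refine max_lt (lt_min hlr ?_) (lt_min ?_ ?_) <;> linarith
  have hfin : (Set.range fun k => xi t (S.v i k)).Finite := Set.finite_range _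
  obtain ⟨x0, hx0, hx0'⟩ := ((Set.Ioo_infinite hlt).diff hfin).nonempty
  obtain ⟨r, hr, hrJ⟩ := exists_exit S t i x0 ((le_max_left _ _).trans_lt hx0.1)
    (hx0.2.trans_le (min_le_left _ _)) fun k hk => hx0' ⟨k, hk.symm⟩
  have hx0a : |x0 - x| < ρ / 2 := by
    rw [abs_lt]
    have a := (le_max_right _ _).trans_lt hx0.1
    have b := hx0.2.trans_le (min_le_right _ _)
    constructor <;> linarith
  have ind : ∀ L : ℕ, ∀ ε > (0 : ℝ), ∃ (w : List (Side n)) (x' : ℝ), w.length = L ∧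
      |x' - x0| < ε ∧ S.Run t (r :: w) x' := by
    intro L
    induction L with
    | zero =>
      intro ε hε
      exact ⟨[], x0, rfl, by simpa using hε, (S.run_single t r x0).2 hrJ⟩
    | succ L ih =>
      intro ε hε
      obtain ⟨w, x', hw, hx', hrun⟩ := ih (ε / 2) (half_pos hε)
      rcases List.eq_nil_or_concat (r :: w) with h | ⟨w', l, h⟩
      · exact absurd h (List.cons_ne_nil _ _)
      · rw [List.concat_eq_append] at h
        rw [h] at hrun
        obtain ⟨r', x'', hx'', hrun'⟩ := hE n S t x' (ε / 2) w' l (half_pos hε) hrun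
        rw [← h] at hrun'
        refine ⟨w ++ [r'], x'', by simp [hw], ?_, hrun'⟩
        calc |x'' - x0| = |(x'' - x') + (x' - x0)| := by ring_nf
          _ ≤ |x'' - x'| + |x' - x0| := abs_add_le _ _
          _ < ε / 2 + ε / 2 := add_lt_add hx'' hx'
          _ = ε := by ring
  obtain ⟨w, x', hw, hx', hrun⟩ := ind L (ρ / 2) (half_pos hρ)
  refine ⟨r, w, x', hr, hw, ?_, hrun⟩
  calc |x' - x| = |(x' - x0) + (x0 - x)| := by ring_nf
    _ ≤ |x' - x0| + |x0 - x| := abs_add_le _ _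
    _ < ρ / 2 + ρ / 2 := add_lt_add hx' hx0a
    _ = ρ := by ring

/-- The realised words of length `L` of the triangle `i`. -/
def Wd (t : ℝ) (L : ℕ) (i : Fin n) : Set (List (Side n)) :=
  {u | u.length = L ∧ (∃ r w, u = r :: w ∧ r.1 = i) ∧ ∃ v, S.Run t u v}

lemma Wd_finite (t : ℝ) (L : ℕ) (i : Fin n) : (Wd S t L i).Finite :=
  (List.finite_length_eq (Side n) L).subset fun _ hu => hu.1

lemma Wd_cover (hE : T_EX) (hL : T_LH) (t : ℝ) {L : ℕ} (hL0 : 0 < L) (i : Fin n) (x : ℝ)
    (h1 : S.xl t i ≤ x) (h2 : x ≤ S.xr t i) :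
    ∃ u ∈ Wd S t L i, S.lo t u ≤ x ∧ x ≤ S.hi t u := by
  have hcl : IsClosed (⋃ u ∈ Wd S t L i, Set.Icc (S.lo t u) (S.hi t u)) :=
    (Wd_finite S t L i).isClosed_biUnion fun u _ => isClosed_Icc
  have hx : x ∈ closure (⋃ u ∈ Wd S t L i, Set.Icc (S.lo t u) (S.hi t u)) := by
    rw [Metric.mem_closure_iff]
    intro ρ hρ
    obtain ⟨r, w, x', hr, hw, hx', hrun⟩ := dense_words S hE t i x ρ h1 h2 hρ (L - 1)
    refine ⟨x', ?_, by rw [dist_comm, Real.dist_eq]; exact hx'⟩
    have h3 := (hL n S t (r :: w) (List.cons_ne_nil _ _) x').1 hrun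
    rw [Set.mem_iUnion₂]
    refine ⟨r :: w, ⟨?_, ⟨r, w, rfl, hr⟩, ⟨x', hrun⟩⟩, h3.2.1.le, h3.2.2.le⟩
    rw [List.length_cons, hw]
    omega
  rw [hcl.closure_eq, Set.mem_iUnion₂] at hx
  obtain ⟨u, hu, h3⟩ := hx
  exact ⟨u, hu, h3.1, h3.2⟩

end geo

theorem pf_M_COV (hM : M_LC) (hE : T_EX) (hF : T_FD) (hL : T_LH) : M_COV := by
  intro n S t L hG hL0
  have hne : ∀ u : List (Side n), u.length = L → u ≠ [] := by
    intro u hu h
    rw [h] at hu
    simp at hu
    omega
  have hfin : {u : List (Side n) | u.length = L}.Finite := List.finite_length_eq (Side n) L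
  have hfin2 : {u : List (Side n) | u.length = L ∧ ∃ v, S.Run t u v}.Finite :=
    hfin.subset fun _ hu => hu.1
  obtain ⟨η, hη, hη2⟩ := exists_pos_le hfin2 (fun u => (S.hi t u - S.lo t u) / 2) (by
    rintro u ⟨hu1, hu2⟩
    have := ((real_iff hL S t (hne u hu1)).1 hu2).2
    linarith)
  have hev : ∀ᶠ t' in 𝓝 t, ∀ u ∈ {u : List (Side n) | u.length = L},
      ((∃ v, S.Run t' u v) ↔ ∃ v, S.Run t u v) ∧
      ((∃ v, S.Run t u v) → η < S.hi t' u - S.lo t' u) := by
    rw [eventually_all_finite hfin]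
    intro u hu
    obtain ⟨δ, hδ, h⟩ := hM n S t hG u (hne u hu)
    refine (Metric.eventually_nhds_iff.2 ⟨δ, hδ, fun t' ht' => ?_⟩).and ?_
    · exact h t' (by rw [← Real.dist_eq]; exact ht')
    · by_cases hr : ∃ v, S.Run t u v
      · have h3 := hη2 u ⟨hu, hr⟩
        have h4 : η < S.hi t u - S.lo t u := by
          have : (0 : ℝ) < (S.hi t u - S.lo t u) / 2 := hη.trans_le h3
          linarith
        have h5 : ∀ᶠ s in 𝓝 t, η < S.hi s u - S.lo s u :=
          (isOpen_lt continuous_const ((cont_hi S u).sub (cont_lo S u))).mem_nhds h4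
        exact h5.mono fun s hs _ => hs
      · exact Filter.Eventually.of_forall fun s h => absurd h hr
  obtain ⟨δ, hδ, hb⟩ := Metric.eventually_nhds_iff.1 hev
  refine ⟨η, hη, δ, hδ, fun t' ht' i x y hx hxy hy hlt => ?_⟩
  have hb' := hb (y := t') (by rw [Real.dist_eq]; exact ht')
  have hlen : ∀ u ∈ Wd S t' L i, η < S.hi t' u - S.lo t' u := by
    rintro u ⟨hu1, -, hu3⟩
    exact (hb' u hu1).2 ((hb' u hu1).1.1 hu3)
  obtain ⟨u, hu, hu1, hu2⟩ := Wd_cover S hE hL t' hL0 i x hx (hxy.trans hy)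
  obtain ⟨huL, ⟨r, w, rfl, hr⟩, hv⟩ := hu
  rcases le_or_gt y (S.hi t' (r :: w)) with hyu | hyu
  · exact ⟨r, r, w, w, y, hr, hr, huL, huL, hv, hv, hxy, le_rfl, hu1, hyu, hu1.trans hxy, hyu⟩
  · set z := S.hi t' (r :: w) with hz
    have hfin3 : {u | u ∈ Wd S t' L i ∧ z < S.lo t' u}.Finite :=
      (Wd_finite S t' L i).subset fun _ h => h.1
    obtain ⟨ε, hε, hε2⟩ := exists_pos_le hfin3 (fun u => S.lo t' u - z) (by
      rintro u ⟨-, h⟩
      simpa using h)
    have hp1 : z < min (z + ε / 2) y := lt_min (by linarith) hyu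
    obtain ⟨u', hu', h3, h4⟩ := Wd_cover S hE hL t' hL0 i (min (z + ε / 2) y)
      ((hx.trans hu2).trans hp1.le) ((min_le_right _ _).trans hy)
    have h5 : S.lo t' u' ≤ z := by
      by_contra h
      push Not at h
      have h6 : ε ≤ S.lo t' u' - z := hε2 u' ⟨hu', h⟩
      have h7 : min (z + ε / 2) y ≤ z + ε / 2 := min_le_left _ _
      linarith
    have h6 : z < S.hi t' u' := hp1.trans_le h4
    have hlen' := hlen u' hu'
    obtain ⟨hu'L, ⟨r', w', rfl, hr'⟩, hv'⟩ := hu'
    have h7 : z ≤ S.lo t' (r' :: w') := by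
      by_contra h
      push Not at h
      have hlo : S.lo t' (r :: w) < z := ((real_iff hL S t' (List.cons_ne_nil _ _)).1 hv).2
      have hmax := max_lt hlo h
      obtain ⟨q, hq1, hq2⟩ := exists_between hmax
      have hR1 : S.Run t' (r :: w) q := (hL n S t' _ (List.cons_ne_nil _ _) q).2
        ⟨((real_iff hL S t' (List.cons_ne_nil _ _)).1 hv).1, (le_max_left _ _).trans_lt hq1, hq2⟩
      have hR2 : S.Run t' (r' :: w') q := (hL n S t' _ (List.cons_ne_nil _ _) q).2
        ⟨((real_iff hL S t' (List.cons_ne_nil _ _)).1 hv').1, (le_max_right _ _).trans_lt hq1,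
          hq2.trans h6⟩
      have heq : r :: w = r' :: w' := by
        rcases hF n S t' q _ _ hR1 hR2 (by simp [hr, hr']) with h | h
        · exact h.eq_of_length (by rw [huL, hu'L])
        · exact (h.eq_of_length (by rw [huL, hu'L])).symm
      rw [← heq] at h6
      exact lt_irrefl _ h6
    exact ⟨r, r', w, w', z, hr, hr', huL, hu'L, hv, hv', hu2, hyu.le, hu1, le_rfl, h5,
      by linarith⟩

end Pool.Agent.H60.GD
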