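import Pool.Agent.H44.GT.Targets

/-!
# In good directions the realised words do not change in a neighbourhood
-/

set_option autoImplicit false

namespace Pool.Agent.H60.GD

open Pool.Agent.H44.DU Filter Topology

lemma cont_xi (z : ℂ) : Continuous (fun s : ℝ => xi s z) := by
  unfold xi
  fun_prop

/-- The left end of the interval of a word is continuous in the slope. -/
lemma cont_lo {n : ℕ} (S : Surf n) (w : List (Side n)) : Continuous (fun s : ℝ => S.lo s w) := by
  induction w with
  | nil => exact continuous_const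
  | cons r w ih =>
    cases w with
    | nil => exact cont_xi _
    | cons r' w =>
      show Continuous (fun s : ℝ => max (xi s (S.Q r)) ((S.lo s (r' :: w) - xi s (S.b r)) / S.a r))
      exact (cont_xi _).max ((ih.sub (cont_xi _)).div_const _)

/-- The right end of the interval of a word is continuous in the slope. -/
lemma cont_hi {n : ℕ} (S : Surf n) (w : List (Side n)) : Continuous (fun s : ℝ => S.hi s w) := by
  induction w with
  | nil => exact continuous_const
  | cons r w ih =>
    cases w with
    | nil => exact cont_xi _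
    | cons r' w =>
      show Continuous (fun s : ℝ => min (xi s (S.P r)) ((S.hi s (r' :: w) - xi s (S.b r)) / S.a r))
      exact (cont_xi _).min ((ih.sub (cont_xi _)).div_const _)

/-- A word is realised somewhere if and only if it is a chain and its interval is not empty. -/
lemma real_iff (hL : T_LH) {n : ℕ} (S : Surf n) (s : ℝ) {w : List (Side n)} (hw : w ≠ []) :
    (∃ x, S.Run s w x) ↔ S.Chn w ∧ S.lo s w < S.hi s w := by
  constructor
  · rintro ⟨x, hx⟩
    obtain ⟨h1, h2, h3⟩ := (hL n S s w hw x).1 hx
    exact ⟨h1, h2.trans h3⟩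
  · rintro ⟨h1, h2⟩
    refine ⟨(S.lo s w + S.hi s w) / 2, (hL n S s w hw _).2 ⟨h1, ?_, ?_⟩⟩ <;> linarith

lemma xi_re_im {t : ℝ} {z z' : ℂ} (h : xi t z = xi t z') (h' : z.im = z'.im) : z = z' := by
  apply Complex.ext
  · unfold xi at h
    rw [h'] at h
    linarith
  · exact h'

theorem pf_M_LC (hL : T_LH) (hD : T_DV) : M_LC := by
  intro n S t hG w hw
  by_cases hc : S.Chn w
  · have hcl := cont_lo S w
    have hch := cont_hi S w
    rcases lt_trichotomy (S.lo t w) (S.hi t w) with h | h | h
    · have hev : ∀ᶠ s in 𝓝 t, S.lo s w < S.hi s w :=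
        (isOpen_lt hcl hch).mem_nhds h
      obtain ⟨δ, hδ, hb⟩ := Metric.eventually_nhds_iff.1 hev
      refine ⟨δ, hδ, fun t' ht' => ?_⟩
      rw [real_iff hL S t' hw, real_iff hL S t hw]
      have := hb (y := t') (by rw [Real.dist_eq]; exact ht')
      simp only [hc, this, h, and_self]
    · obtain ⟨⟨u, r, w1, hu, hlo⟩, ⟨u', r', w2, hu', hhi⟩, -⟩ := hD n S t w hw
      have he : xi t (S.dev u (nx r)) = xi t (S.dev u' r') := by rw [← hlo, ← hhi, h]
      have hz := xi_re_im he (hG u u' (nx r) r' he)
      refine ⟨1, one_pos, fun t' _ => ?_⟩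
      rw [real_iff hL S t' hw, real_iff hL S t hw]
      obtain ⟨-, -, h3⟩ := hD n S t' w hw
      have h4 := (h3 u r w1 hu).1
      have h5 := (h3 u' r' w2 hu').2
      rw [hz] at h4
      constructor
      · rintro ⟨-, h6⟩
        exact absurd h6 (not_lt.2 (h5.trans h4))
      · rintro ⟨-, h6⟩
        exact absurd h6 (by rw [h]; exact lt_irrefl _)
    · have hev : ∀ᶠ s in 𝓝 t, S.hi s w < S.lo s w :=
        (isOpen_lt hch hcl).mem_nhds h
      obtain ⟨δ, hδ, hb⟩ := Metric.eventually_nhds_iff.1 hev
      refine ⟨δ, hδ, fun t' ht' => ?_⟩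
      rw [real_iff hL S t' hw, real_iff hL S t hw]
      have h1 := hb (y := t') (by rw [Real.dist_eq]; exact ht')
      constructor
      · rintro ⟨-, h6⟩
        exact absurd h6 (not_lt.2 h1.le)
      · rintro ⟨-, h6⟩
        exact absurd h6 (not_lt.2 h.le)
  · refine ⟨1, one_pos, fun t' _ => ?_⟩
    rw [real_iff hL S t' hw, real_iff hL S t hw]
    simp only [hc, false_and]

end Pool.Agent.H60.GD
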